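import Pool.Agent.Y404.SE.Main

set_option autoImplicit false

/-!
# Substitution in strongly equistable graphs: the exact threshold for complete graphs, and all
general partition graphs

A unit weighting of a graph is a positive vertex weighting that gives weight `1` to every maximal
stable set. If `H` is substituted for the vertex `v` of `G`, the unit weightings of the new graph
are the pairs of a unit weighting `φ` of `G` and a unit weighting `ψ` of `H`, the latter scaled by
`φ v`. So trouble can only come from a set `T` of vertices of `H` that has a constant weight `t > 1`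
in all unit weightings of `H`.

For `r ≥ 2` let `G_r` have as vertices the following sets of points `u_i`, `z_{i,j}` (`i < r`,
`j = 0, 1`) and `p_k` (`k ≤ r`): the set `v = {u_0, ..., u_{r-1}}`, the sets `{u_i}`, `{p_k}`,
`{z_{i,j}, u_i}`, and `{z_{i,j}, p_k}` with `k ≠ 0` if `j = 0` and `k ≠ r` if `j = 1`; disjoint sets
are adjacent. The maximal stable sets are the stars of the points. The sum of the stars of all `u_i`
and `p_k` minus the sum of the stars of all `z_{i,j}` gives
`φ ({u_0}, ..., {p_r}) + r φ(v) = r + (r + 1) - 2 r = 1` for each unit weighting, while no such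
relation with total at most `1` exists with a coefficient of `v` between `2` and `r - 1`.
-/

namespace Pool.Agent.Results.MP_89a31a_co.SubstitutionThreshold

open Pool.Agent.Y404.SE

theorem result :
    -- for every `r ≥ 2` a graph in which exactly the complete graphs with at least `r` vertices
    -- are harmful
    (∀ r : ℕ, 2 ≤ r → ∃ (V : Type) (_ : Fintype V) (G : SimpleGraph V) (v : V),
      Fintype.card V = 2 * (r + 1) ^ 2 ∧ StronglyEquistable G ∧
      ∀ s : ℕ, 1 ≤ s → StronglyEquistable (⊤ : SimpleGraph (Fin s)) ∧
        (s < r → StronglyEquistable (substitute G v (⊤ : SimpleGraph (Fin s)))) ∧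
        (r ≤ s → ¬ StronglyEquistable (substitute G v (⊤ : SimpleGraph (Fin s))) ∧
          ¬ Equistable (substitute G v (⊤ : SimpleGraph (Fin s))))) ∧
    -- the general partition graphs which can always be substituted
    (∀ (W : Type) [Finite W] [Nonempty W] (H : SimpleGraph W), GeneralPartition H →
      StronglyEquistable H ∧
      ((∀ (V : Type) [Finite V] (G : SimpleGraph V) (v : V), StronglyEquistable G →
        StronglyEquistable (substitute G v H)) ↔ FullyEquistable H) ∧
      (¬ FullyEquistable H → ∃ (V : Type) (_ : Fintype V) (G : SimpleGraph V) (v : V),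
        StronglyEquistable G ∧ ¬ Equistable (substitute G v H))) ∧
    -- arbitrary fully equistable graphs can always be substituted
    (∀ (V W : Type) [Finite V] [Finite W] [Nonempty W] (G : SimpleGraph V) (v : V)
      (H : SimpleGraph W), FullyEquistable H →
      (StronglyEquistable G → StronglyEquistable (substitute G v H)) ∧
      (FullyEquistable G → FullyEquistable (substitute G v H))) := by
  refine ⟨fun r hr => ⟨E r, inferInstance, Gr r, E.v, E.card, strong_Gr hr, fun s hs =>
    ⟨top_strong hs, fun h => (threshold hr s).1 hs h, fun h => ?_⟩⟩, ?_, ?_⟩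
  · exact ⟨((threshold hr s).2 h).2, ((threshold hr s).2 h).1⟩
  · intro W _ _ H hH
    refine ⟨gp_strong hH, ⟨fun h => ?_, fun h V _ G v hG => strong_of_full v hG h⟩, fun h => ?_⟩
    · by_contra hF
      obtain ⟨V, _, G, v, h1, -, h3⟩ := gp_destroys hH hF
      exact h3 (h V G v h1)
    · obtain ⟨V, i, G, v, h1, h2, -⟩ := gp_destroys hH h
      exact ⟨V, i, G, v, h1, h2⟩
  · intro V W _ _ _ G v H hH
    exact ⟨fun h => strong_of_full v h hH, fun h => full_of_full v h hH⟩

end Pool.Agent.Results.MP_89a31a_co.SubstitutionThreshold
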